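import Pool.Agent.W254.LF.Stm
import Pool.Agent.W289.SL.Emb

/-!
# Criterion for Leopoldt's conjecture (LF-CRIT)
-/

set_option autoImplicit false
set_option linter.unusedSectionVars false

open NumberField Filter Topology Pool.Agent.W289.SL

namespace Pool.Agent.W253.LF

section
variable {p : ℕ} [hp : Fact p.Prime] {K : Type} [Field K] [NumberField K]
  {L : ℂ_[p] → ℂ_[p]} (hL : IsIwasawaLog p L)

/-- the vector of logarithms -/
noncomputable def Lam : Additive (𝓞 K)ˣ →+ ((K →+* ℂ_[p]) → ℂ_[p]) :=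
  AddMonoidHom.pi fun σ => logHom hL σ

theorem Lam_apply (x : (𝓞 K)ˣ) (σ : K →+* ℂ_[p]) :
    Lam hL (Additive.ofMul x) σ = L (σ ((x : 𝓞 K) : K)) := rfl

theorem exists_torsion_pow {x : (𝓞 K)ˣ} (hx : x ∈ Units.torsion K) :
    ∃ M : ℕ, 0 < M ∧ x ^ M = 1 := by
  have := (CommGroup.mem_torsion x).1 hx
  exact isOfFinOrder_iff_pow_eq_one.1 this

theorem prod_zpow_sum {G ι : Type} [CommGroup G] (s : Finset ι) (x : G) (f : ι → ℤ) :
    ∏ i ∈ s, x ^ f i = x ^ ∑ i ∈ s, f i := by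
  classical
  induction s using Finset.induction_on with
  | empty => simp
  | insert a s ha ih => rw [Finset.prod_insert ha, Finset.sum_insert ha, ih, zpow_add]

theorem Lam_torsion {x : (𝓞 K)ˣ} (hx : x ∈ Units.torsion K) :
    Lam hL (Additive.ofMul x) = 0 := by
  obtain ⟨M, hM, h⟩ := exists_torsion_pow hx
  have h1 : M • Lam hL (Additive.ofMul x) = 0 := by
    rw [← map_nsmul, ← ofMul_pow, h, ofMul_one, map_zero]
  funext σ
  have h2 := congrFun h1 σ
  simp only [Pi.smul_apply, nsmul_eq_mul, Pi.zero_apply] at h2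
  rcases mul_eq_zero.1 h2 with h3 | h3
  · exfalso
    have : M ≠ 0 := hM.ne'
    exact this (by exact_mod_cast h3)
  · exact h3

theorem Lam_prod {ι : Type} [Fintype ι] (v : ι → (𝓞 K)ˣ) (m : ι → ℤ) :
    Lam hL (Additive.ofMul (∏ i, v i ^ m i)) = ∑ i, (m i : ℂ_[p]) • Lam hL (Additive.ofMul (v i)) := by
  rw [ofMul_prod, map_sum]
  refine Finset.sum_congr rfl fun i _ => ?_
  rw [ofMul_zpow, map_zsmul]
  funext σ
  simp

theorem exists_exp (x : (𝓞 K)ˣ) : ∃ (ζ : (𝓞 K)ˣ) (e : Fin (Units.rank K) → ℤ),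
    ζ ∈ Units.torsion K ∧ x = ζ * ∏ i, (Units.fundSystem K i) ^ (e i) := by
  obtain ⟨⟨ζ, e⟩, h, -⟩ := Units.exist_unique_eq_mul_prod K x
  exact ⟨ζ, e, ζ.2, h⟩

theorem exists_den {n : ℕ} (q : Fin n → ℚ) : ∃ (D : ℕ) (c : Fin n → ℤ), D ≠ 0 ∧
    ∀ i, (c i : ℚ) = D * q i := by
  refine ⟨∏ i, (q i).den, fun i => (∏ j ∈ Finset.univ.erase i, ((q j).den : ℤ)) * (q i).num,
    Finset.prod_ne_zero_iff.2 fun i _ => (q i).den_nz, fun i => ?_⟩
  rw [← Finset.prod_erase_mul _ _ (Finset.mem_univ i)]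
  push_cast
  have h1 := Rat.mul_den_eq_num (q i)
  rw [← h1]
  ring

theorem norm_L_le (hL : IsIwasawaLog p L) {z : ℂ_[p]} (hz : ‖z‖ ≤ 1 / 8) :
    ‖L (1 + z)‖ ≤ 2 * ‖z‖ := by
  have h1 := hL.approx hz
  have h2 : L (1 + z) = (L (1 + z) - z) + z := by ring
  rw [h2]
  refine (norm_add_le _ _).trans ?_
  nlinarith [norm_nonneg z]

/-- the limit of the logarithms -/
theorem tendsto_zero (hL : IsIwasawaLog p L) (σ : K →+* ℂ_[p]) (y : ℕ → (𝓞 K)ˣ)
    (hy : ∀ N : ℕ, ∀ᶠ k in atTop, ((p : ℕ) : 𝓞 K) ^ N ∣ ((y k : 𝓞 K) - 1)) :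
    Tendsto (fun k => L (σ ((y k : 𝓞 K) : K))) atTop (𝓝 0) := by
  rw [Metric.tendsto_atTop']
  intro δ hδ
  have hp2 : (1 : ℝ) < p := by exact_mod_cast hp.out.one_lt
  have hlim : Tendsto (fun N : ℕ => ((p : ℝ)⁻¹) ^ N) atTop (𝓝 0) :=
    tendsto_pow_atTop_nhds_zero_of_lt_one (by positivity) (inv_lt_one_of_one_lt₀ hp2)
  obtain ⟨N, hN⟩ := (hlim.eventually (gt_mem_nhds
    (show (0 : ℝ) < min (1 / 8) (δ / 2) from lt_min (by norm_num) (by linarith)))).exists
  obtain ⟨k₀, hk₀⟩ := eventually_atTop.1 (hy N)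
  refine ⟨k₀, fun k hk => ?_⟩
  obtain ⟨w, hw⟩ := hk₀ k hk.le
  have h1 : σ ((y k : 𝓞 K) : K) = 1 + ((p : ℕ) : ℂ_[p]) ^ N * σ (w : K) := by
    have h2 : ((y k : 𝓞 K) : K) = 1 + ((p : ℕ) : K) ^ N * (w : K) := by
      have h3 := congrArg (fun x : 𝓞 K => (x : K)) hw
      simp only [map_sub, map_one, map_mul, map_pow, map_natCast] at h3
      rw [← h3]
      ring
    rw [h2]
    simp
  have h4 : ‖((p : ℕ) : ℂ_[p]) ^ N * σ (w : K)‖ ≤ ((p : ℝ)⁻¹) ^ N := by
    rw [norm_mul, norm_pow, norm_p]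
    have := norm_emb_le σ w
    calc ((p : ℝ)⁻¹) ^ N * ‖σ (w : K)‖ ≤ ((p : ℝ)⁻¹) ^ N * 1 := by gcongr
      _ = _ := mul_one _
  have h5 := lt_min_iff.1 hN
  rw [dist_zero_right, h1]
  refine (norm_L_le hL (h4.trans h5.1.le)).trans_lt ?_
  linarith [h5.2]

end

theorem t_CRIT : Pool.Agent.W254.LF.S_CRIT := by
  intro K _ _ p hp L hL r u hrk hu n ε _ hind a m hma hdiv
  -- the logarithmic vectors of the fundamental units are independent
  have hex := fun x : (𝓞 K)ˣ => exists_exp x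
  choose ζ e hζ he using hex
  have hLe : ∀ x : (𝓞 K)ˣ, Lam hL (Additive.ofMul x) =
      ∑ k, (e x k : ℂ_[p]) • Lam hL (Additive.ofMul (Units.fundSystem K k)) := by
    intro x
    conv_lhs => rw [he x]
    rw [ofMul_mul, map_add, Lam_torsion hL (hζ x), zero_add, Lam_prod]
  have hlu : LinearIndependent ℂ_[p] (fun i => Lam hL (Additive.ofMul (u i))) := by
    rw [Fintype.linearIndependent_iff]
    intro g hg i
    have := hu g (fun σ => by
      have h1 := congrFun hg σ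
      simpa [Finset.sum_apply, Lam_apply] using h1)
    rw [this]
    rfl
  have hη : LinearIndependent ℂ_[p]
      (fun k => Lam hL (Additive.ofMul (Units.fundSystem K k))) := by
    rw [linearIndependent_iff_card_eq_finrank_span]
    have h1 : (Set.range fun k => Lam hL (Additive.ofMul (Units.fundSystem K k))).finrank ℂ_[p] ≤
        Fintype.card (Fin (Units.rank K)) := finrank_range_le_card _
    have h2 : (Set.range fun i => Lam hL (Additive.ofMul (u i))).finrank ℂ_[p] ≤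
        (Set.range fun k => Lam hL (Additive.ofMul (Units.fundSystem K k))).finrank ℂ_[p] := by
      unfold Set.finrank
      apply Submodule.finrank_mono
      rw [Submodule.span_le]
      rintro _ ⟨i, rfl⟩
      simp only
      rw [hLe (u i)]
      refine Submodule.sum_mem _ fun k _ => Submodule.smul_mem _ _ (Submodule.subset_span ⟨k, rfl⟩)
    have h3 := linearIndependent_iff_card_eq_finrank_span.1 hlu
    rw [Fintype.card_fin] at h1 h3 ⊢
    omega
  -- the relation between the logarithms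
  have hj : Continuous (fun x : PadicInt p => algebraMap ℚ_[p] ℂ_[p] (x : ℚ_[p])) :=
    (continuous_algebraMap ℚ_[p] ℂ_[p]).comp continuous_subtype_val
  have hrel : ∀ σ : K →+* ℂ_[p],
      ∑ i, algebraMap ℚ_[p] ℂ_[p] (a i : ℚ_[p]) * L (σ ((ε i : 𝓞 K) : K)) = 0 := by
    intro σ
    have h1 := tendsto_zero hL σ (fun k => ∏ i, ε i ^ m k i) hdiv
    have h2 : ∀ k, L (σ (((∏ i, ε i ^ m k i : (𝓞 K)ˣ) : 𝓞 K) : K)) =
        ∑ i, algebraMap ℚ_[p] ℂ_[p] (((m k i : ℤ) : PadicInt p) : ℚ_[p]) *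
          L (σ ((ε i : 𝓞 K) : K)) := by
      intro k
      have h3 := congrFun (Lam_prod hL ε (m k)) σ
      rw [Lam_apply] at h3
      rw [h3, Finset.sum_apply]
      refine Finset.sum_congr rfl fun i _ => ?_
      rw [Pi.smul_apply, smul_eq_mul, Lam_apply]
      congr 1
      simp
    simp only [h2] at h1
    have h4 : Tendsto (fun k => ∑ i, algebraMap ℚ_[p] ℂ_[p] (((m k i : ℤ) : PadicInt p) : ℚ_[p]) *
          L (σ ((ε i : 𝓞 K) : K))) atTop
        (𝓝 (∑ i, algebraMap ℚ_[p] ℂ_[p] (a i : ℚ_[p]) * L (σ ((ε i : 𝓞 K) : K)))) := by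
      refine tendsto_finsetSum _ fun i _ => ?_
      exact ((hj.tendsto (a i)).comp (hma i)).mul_const _
    exact tendsto_nhds_unique h4 h1
  have hrel2 : ∀ k, ∑ i, (a i : ℚ_[p]) * (e (ε i) k : ℚ_[p]) = 0 := by
    have h1 : ∑ k, (∑ i, algebraMap ℚ_[p] ℂ_[p] (a i : ℚ_[p]) * (e (ε i) k : ℂ_[p])) •
        Lam hL (Additive.ofMul (Units.fundSystem K k)) = 0 := by
      have h2 : ∑ i, algebraMap ℚ_[p] ℂ_[p] (a i : ℚ_[p]) • Lam hL (Additive.ofMul (ε i)) = 0 := by
        funext σ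
        rw [Finset.sum_apply]
        exact hrel σ
      rw [← h2]
      simp only [Finset.sum_smul]
      rw [Finset.sum_comm]
      refine Finset.sum_congr rfl fun i _ => ?_
      rw [hLe (ε i), Finset.smul_sum]
      refine Finset.sum_congr rfl fun k _ => ?_
      rw [smul_smul]
    intro k
    have h3 := Fintype.linearIndependent_iff.1 hη _ h1 k
    apply (algebraMap ℚ_[p] ℂ_[p]).injective
    rw [map_zero, ← h3, map_sum]
    refine Finset.sum_congr rfl fun i _ => ?_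
    rw [map_mul, map_intCast]
  -- rational functionals
  have hfun : ∀ (φ : Module.Dual ℚ ℚ_[p]) (i : Fin n), φ (a i : ℚ_[p]) = 0 := by
    intro φ i
    obtain ⟨D, c, hD, hc⟩ := exists_den (fun i => φ (a i : ℚ_[p]))
    have h1 : ∀ k, ∑ i, (c i : ℤ) * e (ε i) k = 0 := by
      intro k
      have h2 := congrArg φ (hrel2 k)
      rw [map_sum, map_zero] at h2
      have h3 : ∀ i, φ ((a i : ℚ_[p]) * (e (ε i) k : ℚ_[p])) =
          φ (a i : ℚ_[p]) * (e (ε i) k : ℚ) := by
        intro i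
        have h4 : (a i : ℚ_[p]) * (e (ε i) k : ℚ_[p]) = ((e (ε i) k : ℚ)) • (a i : ℚ_[p]) := by
          rw [Algebra.smul_def, mul_comm]
          congr 1
        rw [h4, map_smul, smul_eq_mul, mul_comm]
      simp only [h3] at h2
      have h5 : ((∑ i, (c i : ℤ) * e (ε i) k : ℤ) : ℚ) = 0 := by
        push_cast
        simp only [hc]
        have : ∀ i, (D : ℚ) * φ (a i : ℚ_[p]) * (e (ε i) k : ℚ) =
            D * (φ (a i : ℚ_[p]) * (e (ε i) k : ℚ)) := fun i => by ring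
        simp only [this]
        rw [← Finset.mul_sum, h2, mul_zero]
      exact_mod_cast h5
    -- torsion element
    have h6 : ∏ i, ε i ^ c i = ∏ i, ζ (ε i) ^ c i := by
      have h7 : ∀ i, ε i ^ c i = ζ (ε i) ^ c i * ∏ k, (Units.fundSystem K k) ^ (c i * e (ε i) k) := by
        intro i
        conv_lhs => rw [he (ε i)]
        rw [mul_zpow, ← Finset.prod_zpow]
        congr 1
        refine Finset.prod_congr rfl fun k _ => ?_
        rw [← zpow_mul, mul_comm]
      rw [Finset.prod_congr rfl fun i _ => h7 i, Finset.prod_mul_distrib, Finset.prod_comm]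
      have h8 : ∀ k, ∏ i, (Units.fundSystem K k) ^ (c i * e (ε i) k) = 1 := by
        intro k
        rw [prod_zpow_sum, h1 k, zpow_zero]
      rw [Finset.prod_congr rfl fun k _ => h8 k]
      simp
    have h9 : ∏ i, ε i ^ c i ∈ Units.torsion K := by
      rw [h6]
      exact Subgroup.prod_mem _ fun i _ => Subgroup.zpow_mem _ (hζ _) _
    obtain ⟨M, hM, hM1⟩ := exists_torsion_pow h9
    have h10 : ∏ i, ε i ^ ((M : ℤ) * c i) = 1 := by
      rw [← hM1, ← Finset.prod_pow]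
      refine Finset.prod_congr rfl fun i _ => ?_
      rw [mul_comm, zpow_mul, zpow_natCast]
    have h11 := congrFun (hind _ h10) i
    simp only [Pi.zero_apply, mul_eq_zero] at h11
    have h12 : c i = 0 := by
      rcases h11 with h | h
      · exfalso
        omega
      · exact h
    have h13 := hc i
    rw [h12] at h13
    have h14 : (D : ℚ) ≠ 0 := by exact_mod_cast hD
    have h15 : (D : ℚ) * φ (a i : ℚ_[p]) = 0 := by
      rw [← h13]
      simp
    exact (mul_eq_zero.1 h15).resolve_left h14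
  funext i
  have h1 := (Module.forall_dual_apply_eq_zero_iff ℚ (a i : ℚ_[p])).1 (fun φ => hfun φ i)
  exact PadicInt.coe_eq_zero.1 h1

end Pool.Agent.W253.LF
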