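import Pool.Agent.W254.LF.Stm

/-!
# Ostrowski's theorem on the independence of primitives (LF-OST)
-/

set_option autoImplicit false
set_option linter.unusedSectionVars false

open MvPolynomial

namespace Pool.Agent.W253.LF

section
variable {K₀ F E : Type} [Field K₀] [Field F] [Field E] [Algebra K₀ F] [Algebra F E]
    [Algebra K₀ E] [IsScalarTower K₀ F E] (DF : Derivation K₀ F F) (DE : Derivation K₀ E E)
    {ι : Type} [Fintype ι] (w : ι → F)

/-- differentiate the coefficients -/
noncomputable def dC (P : MvPolynomial ι F) : MvPolynomial ι F :=
  ∑ m ∈ P.support, monomial m (DF (coeff m P))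

theorem coeff_dC (P : MvPolynomial ι F) (m : ι →₀ ℕ) : coeff m (dC DF P) = DF (coeff m P) := by
  classical
  unfold dC
  rw [coeff_sum]
  simp only [coeff_monomial]
  rw [Finset.sum_ite_eq']
  split_ifs with h
  · rfl
  · rw [notMem_support_iff.1 h, map_zero]

theorem dC_add (P Q : MvPolynomial ι F) : dC DF (P + Q) = dC DF P + dC DF Q := by
  ext m
  rw [coeff_add, coeff_dC, coeff_dC, coeff_dC, coeff_add, map_add]

theorem dC_C (a : F) : dC DF (C a : MvPolynomial ι F) = C (DF a) := by
  classical
  ext m
  rw [coeff_dC, coeff_C, coeff_C]
  split_ifs
  · rfl
  · rw [map_zero]

theorem dC_mul_X (P : MvPolynomial ι F) (k : ι) : dC DF (P * X k) = dC DF P * X k := by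
  classical
  ext m
  rw [coeff_dC, coeff_mul_X', coeff_mul_X']
  split_ifs
  · rw [coeff_dC]
  · rw [map_zero]

/-- the total derivative -/
noncomputable def st (P : MvPolynomial ι F) : MvPolynomial ι F :=
  dC DF P + ∑ k, C (w k) * pderiv k P

theorem coeff_st (P : MvPolynomial ι F) (m : ι →₀ ℕ) :
    coeff m (st DF w P) = DF (coeff m P) +
      ∑ k, w k * (coeff (m + Finsupp.single k 1) P * (m k + 1)) := by
  unfold st
  rw [coeff_add, coeff_dC, coeff_sum]
  congr 1
  refine Finset.sum_congr rfl fun k _ => ?_
  rw [coeff_C_mul, coeff_pderiv]

theorem aeval_st (hc : ∀ f : F, DE (algebraMap F E f) = algebraMap F E (DF f)) (y : ι → E)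
    (hy : ∀ i, DE (y i) = algebraMap F E (w i)) (P : MvPolynomial ι F) :
    DE (aeval y P) = aeval y (st DF w P) := by
  classical
  induction P using MvPolynomial.induction_on with
  | C a =>
    unfold st
    rw [dC_C]
    simp [hc, algHom_C]
  | add P Q hP hQ =>
    rw [map_add, map_add, hP, hQ]
    unfold st
    rw [dC_add]
    simp only [map_add, mul_add, Finset.sum_add_distrib]
    ring
  | mul_X P k hP =>
    rw [map_mul, aeval_X, Derivation.leibniz, hP, hy]
    unfold st
    rw [dC_mul_X]
    have h1 : ∀ j, C (w j) * pderiv j (P * X k) =
        C (w j) * pderiv j P * X k + (if j = k then C (w j) * P else 0) := by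
      intro j
      rw [Derivation.leibniz, pderiv_X]
      simp only [smul_eq_mul, Pi.single_apply]
      by_cases hjk : j = k
      · subst hjk
        simp
        ring
      · rw [if_neg hjk, if_neg (fun h => hjk h.symm)]
        ring
    rw [Finset.sum_congr rfl fun j _ => h1 j, Finset.sum_add_distrib, ← Finset.sum_mul,
      Finset.sum_ite_eq' Finset.univ k, if_pos (Finset.mem_univ k)]
    simp only [map_add, map_mul, aeval_X, smul_eq_mul, map_sum]
    simp only [aeval_C]
    ring

/-- degree of a monomial -/
def dg (m : ι →₀ ℕ) : ℕ := ∑ i, m i

theorem dg_add_single (m : ι →₀ ℕ) (k : ι) : dg (m + Finsupp.single k 1) = dg m + 1 := by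
  classical
  unfold dg
  simp only [Finsupp.add_apply, Finset.sum_add_distrib]
  congr 1
  simp [Finsupp.single_apply]

end

theorem t_OST : Pool.Agent.W254.LF.S_OST := by
  classical
  intro K₀ F E _ _ _ _ _ _ _ _ DF DE hc hconst ι _ y w hy hind
  have hinjFE : Function.Injective (algebraMap F E) := (algebraMap F E).injective
  have : CharZero F := (algebraMap F E).charZero
  have hconstF : ∀ f : F, DF f = 0 → ∃ c : K₀, algebraMap K₀ F c = f := by
    intro f hf
    obtain ⟨c, hc'⟩ := hconst (algebraMap F E f) (by rw [hc, hf, map_zero])
    refine ⟨c, hinjFE ?_⟩
    rw [← IsScalarTower.algebraMap_apply]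
    exact hc'
  -- the main induction
  have key : ∀ (d s : ℕ) (P : MvPolynomial ι F), (∀ m, coeff m P ≠ 0 → dg m ≤ d) →
      (P.support.filter (fun m => dg m = d)).card ≤ s → aeval y P = 0 → P = 0 := by
    intro d
    induction d using Nat.strong_induction_on with
    | _ d ihd =>
      intro s
      induction s with
      | zero =>
        intro P hP hs h0
        rw [Nat.le_zero, Finset.card_eq_zero, Finset.filter_eq_empty_iff] at hs
        rcases Nat.eq_zero_or_pos d with hd | hd
        · subst hd
          ext m
          rw [coeff_zero]
          by_contra hm
          exact hs (mem_support_iff.2 hm) (Nat.le_zero.1 (hP m hm))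
        · refine ihd (d - 1) (by omega) _ P (fun m hm => ?_) le_rfl h0
          have h1 := hP m hm
          have h2 : dg m ≠ d := fun h => hs (mem_support_iff.2 hm) h
          omega
      | succ s ihs =>
        intro P hP hs h0
        by_contra hne
        -- a monomial of top degree
        by_cases htop : ∃ μ, coeff μ P ≠ 0 ∧ dg μ = d
        swap
        · push Not at htop
          apply hne
          refine ihs P hP ?_ h0
          have : P.support.filter (fun m => dg m = d) = ∅ := by
            rw [Finset.filter_eq_empty_iff]
            intro m hm
            exact htop m (mem_support_iff.1 hm)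
          rw [this]
          simp
        obtain ⟨μ, hμ, hμd⟩ := htop
        set a := coeff μ P with ha
        set Q : MvPolynomial ι F := MvPolynomial.C a⁻¹ * P with hQ
        have hQc : ∀ m, coeff m Q = a⁻¹ * coeff m P := fun m => by rw [hQ, coeff_C_mul]
        have hQne : ∀ m, coeff m Q ≠ 0 ↔ coeff m P ≠ 0 := by
          intro m
          rw [hQc]
          simp [hμ]
        have hQμ : coeff μ Q = 1 := by rw [hQc, inv_mul_cancel₀ hμ]
        have hQ0 : aeval y Q = 0 := by rw [hQ, map_mul, h0, mul_zero]
        have hQd : ∀ m, coeff m Q ≠ 0 → dg m ≤ d := fun m hm => hP m ((hQne m).1 hm)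
        have hst_top : ∀ m, dg m = d → coeff m (st DF w Q) = DF (coeff m Q) := by
          intro m hm
          rw [coeff_st]
          have : ∀ k, w k * (coeff (m + Finsupp.single k 1) Q * ((m k : F) + 1)) = 0 := by
            intro k
            have : coeff (m + Finsupp.single k 1) Q = 0 := by
              by_contra h
              have := hQd _ h
              rw [dg_add_single] at this
              omega
            rw [this, zero_mul, mul_zero]
          rw [Finset.sum_congr rfl fun k _ => this k]
          simp
        have hst : st DF w Q = 0 := by
          refine ihs (st DF w Q) ?_ ?_ ?_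
          · intro m hm
            by_contra hlt
            push Not at hlt
            apply hm
            rw [coeff_st]
            have h1 : coeff m Q = 0 := by
              by_contra h
              have := hQd _ h
              omega
            have h2 : ∀ k, w k * (coeff (m + Finsupp.single k 1) Q * ((m k : F) + 1)) = 0 := by
              intro k
              have : coeff (m + Finsupp.single k 1) Q = 0 := by
                by_contra h
                have := hQd _ h
                rw [dg_add_single] at this
                omega
              rw [this, zero_mul, mul_zero]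
            rw [h1, map_zero, Finset.sum_congr rfl fun k _ => h2 k]
            simp
          · have hsub : (st DF w Q).support.filter (fun m => dg m = d) ⊆
                (P.support.filter (fun m => dg m = d)).erase μ := by
              intro m hm
              rw [Finset.mem_filter, mem_support_iff] at hm
              rw [Finset.mem_erase, Finset.mem_filter, mem_support_iff]
              have h1 := hm.1
              rw [hst_top m hm.2] at h1
              refine ⟨?_, ?_, hm.2⟩
              · rintro rfl
                apply h1
                rw [hQμ]
                exact DF.map_one_eq_zero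
              · rw [← hQne]
                intro h
                apply h1
                rw [h, map_zero]
            have h2 := Finset.card_le_card hsub
            rw [Finset.card_erase_of_mem (Finset.mem_filter.2 ⟨mem_support_iff.2 hμ, hμd⟩)] at h2
            omega
          · rw [← aeval_st DF DE w hc y hy, hQ0, map_zero]
        -- top coefficients are constants
        have htopc : ∀ m, dg m = d → ∃ c : K₀, algebraMap K₀ F c = coeff m Q := by
          intro m hm
          apply hconstF
          rw [← hst_top m hm, hst, coeff_zero]
        rcases Nat.eq_zero_or_pos d with hd | hd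
        · -- constant polynomial
          subst hd
          have hμ0 : μ = 0 := by
            ext i
            have : μ i ≤ dg μ := Finset.single_le_sum (f := fun i => μ i) (fun _ _ => Nat.zero_le _)
              (Finset.mem_univ i)
            rw [hμd] at this
            simpa using this
          have hQ1 : Q = 1 := by
            ext m
            by_cases hm : coeff m Q = 0
            · rw [hm, coeff_one]
              split_ifs with h
              · rw [← h, ← hμ0, hQμ] at hm
                exact absurd hm one_ne_zero
              · rfl
            · have h1 := hQd m hm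
              have hm0 : m = 0 := by
                ext i
                have : m i ≤ dg m := Finset.single_le_sum (f := fun i => m i)
                  (fun _ _ => Nat.zero_le _) (Finset.mem_univ i)
                simp
                omega
              rw [hm0, ← hμ0, hQμ, hμ0, coeff_one, if_pos rfl]
          rw [hQ1, map_one] at hQ0
          exact one_ne_zero hQ0
        · obtain ⟨k₀, hk₀⟩ : ∃ k, 0 < μ k := by
            by_contra hcon
            push Not at hcon
            have : dg μ = 0 := Finset.sum_eq_zero fun i _ => Nat.le_zero.1 (hcon i)
            omega
          set ν : ι →₀ ℕ := μ - Finsupp.single k₀ 1 with hν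
          have hνμ : ν + Finsupp.single k₀ 1 = μ := by
            rw [hν]
            apply tsub_add_cancel_of_le
            rw [Finsupp.single_le_iff]
            exact hk₀
          have hνd : dg ν + 1 = d := by rw [← hμd, ← hνμ, dg_add_single]
          have hcex : ∀ k, ∃ c : K₀, algebraMap K₀ F c =
              coeff (ν + Finsupp.single k 1) Q * ((ν k : F) + 1) := by
            intro k
            obtain ⟨c, hc'⟩ := htopc (ν + Finsupp.single k 1) (by rw [dg_add_single, hνd])
            refine ⟨c * ((ν k : K₀) + 1), ?_⟩
            rw [map_mul, hc', map_add, map_natCast, map_one]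
          choose c hcc using hcex
          have h1 : coeff ν (st DF w Q) = 0 := by rw [hst, coeff_zero]
          rw [coeff_st] at h1
          have h2 : DE (algebraMap F E (coeff ν Q) + ∑ k, algebraMap K₀ E (c k) * y k) = 0 := by
            rw [map_add, map_sum, hc]
            have h3 : ∀ k, DE (algebraMap K₀ E (c k) * y k) =
                algebraMap F E (w k * (coeff (ν + Finsupp.single k 1) Q * ((ν k : F) + 1))) := by
              intro k
              rw [← Algebra.smul_def, DE.map_smul, hy, ← hcc, map_mul, Algebra.smul_def,
                ← IsScalarTower.algebraMap_apply, mul_comm]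
            rw [Finset.sum_congr rfl fun k _ => h3 k, ← map_sum, ← map_add, h1, map_zero]
          obtain ⟨c₀, hc₀⟩ := hconst _ h2
          have h4 : ∑ k, algebraMap K₀ E (c k) * y k =
              algebraMap F E (algebraMap K₀ F c₀ - coeff ν Q) := by
            rw [map_sub, ← IsScalarTower.algebraMap_apply, hc₀]
            ring
          have h5 := hind c _ h4
          have h6 := hcc k₀
          rw [h5, hνμ, hQμ] at h6
          simp only [Pi.zero_apply, map_zero, one_mul] at h6
          have : ((ν k₀ : F) + 1) ≠ 0 := Nat.cast_add_one_ne_zero (ν k₀)
          exact this h6.symm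
  rw [algebraicIndependent_iff]
  intro P hP
  refine key (P.support.sup dg) _ P (fun m hm => ?_) le_rfl hP
  exact Finset.le_sup (f := dg) (mem_support_iff.2 hm)

end Pool.Agent.W253.LF
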